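import Mathlib
import Pool.Agent.Y826.ZL.Defs2
import Pool.Agent.Y535.ZP.Dya

/-! The off-diagonal terms for fixed outer variables (job Y826-OA). -/

open Finset Filter

namespace Pool.Agent.Y826.ZL.Y535

open Pool.Agent.Y535.ZP

open Pool.Agent.Y826.Z

/-- pairs of `n₁, n₂` -/
noncomputable def Bf (N : ℕ) (β : ℕ → ℝ) (t : ℤ) (n1 : ℕ) : ℝ :=
  ∑ n2 ∈ Ioc N (2 * N), ind ((n2 : ℤ) = n1 + t) * (β n1 * β n2)

lemma ind_nonneg (P : Prop) : 0 ≤ ind P := by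
  unfold ind; split_ifs <;> norm_num

lemma Bf_le (N : ℕ) (β : ℕ → ℝ) (t : ℤ) (b0 : ℝ) (hb : 0 ≤ b0)
    (hβ : ∀ n ∈ Ioc N (2 * N), |β n| ≤ b0) (n1 : ℕ) (hn1 : n1 ∈ Ioc N (2 * N)) :
    |Bf N β t n1| ≤ b0 ^ 2 := by
  unfold Bf
  refine (abs_sum_le_sum_abs _ _).trans ?_
  have h1 : ∀ n2 ∈ Ioc N (2 * N), |ind ((n2 : ℤ) = n1 + t) * (β n1 * β n2)| ≤
      ind ((n2 : ℤ) = n1 + t) * b0 ^ 2 := by
    intro n2 hn2
    rw [abs_mul, abs_of_nonneg (ind_nonneg _), abs_mul, sq]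
    apply mul_le_mul_of_nonneg_left _ (ind_nonneg _)
    exact mul_le_mul (hβ n1 hn1) (hβ n2 hn2) (abs_nonneg _) hb
  refine (sum_le_sum h1).trans ?_
  rw [← sum_mul]
  have h2 : ∑ n2 ∈ Ioc N (2 * N), ind ((n2 : ℤ) = n1 + t) ≤ 1 := by
    classical
    have h3 : ∀ n2 ∈ Ioc N (2 * N), ind ((n2 : ℤ) = n1 + t) =
        if n2 = ((n1 : ℤ) + t).toNat then (ind ((n2 : ℤ) = n1 + t)) else 0 := by
      intro n2 _
      split_ifs with h
      · rfl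
      · unfold ind
        rw [if_neg]
        intro h4
        apply h
        rw [← h4]; simp
    rw [sum_congr rfl h3, sum_ite_eq']
    split_ifs
    · unfold ind; split_ifs <;> norm_num
    · norm_num
  calc (∑ n2 ∈ Ioc N (2 * N), ind ((n2 : ℤ) = n1 + t)) * b0 ^ 2 ≤ 1 * b0 ^ 2 :=
        mul_le_mul_of_nonneg_right h2 (sq_nonneg _)
    _ = b0 ^ 2 := one_mul _

/-- the estimate for one phase function -/
lemma one {ε C : ℝ} (hε : 0 < ε) (hC : 1 ≤ C) {K : ℕ}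
    (hV : ∀ (P : Finset ℕ), (∀ p ∈ P, p.Prime) →
      ∀ (A c : (p : ℕ) → ZMod p) (a : ℤ) (N d : ℕ), 1 ≤ d → d ≤ N → (∀ p ∈ P, ¬ p ∣ d) →
      ∀ Z : ℤ → ℂ, (∀ n, Z (n + d) = Z n) → (∀ n, ‖Z n‖ ≤ 1) →
      ‖∑ n ∈ Ico a (a + N), Z n * PH P A c n‖ ^ 2 ≤
        C * ((N : ℝ) * ((∏ p ∈ P, p : ℕ) : ℝ)) ^ ε *
          ((N : ℝ) * d + N * Real.sqrt ((∏ p ∈ P.filter (fun p => A p = 0), p : ℕ) : ℝ) *
            (Real.sqrt ((∏ p ∈ P, p : ℕ) : ℝ) + N / Real.sqrt ((∏ p ∈ P, p : ℕ) : ℝ))))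
    (T0 Pi M N : ℕ) (X V1 q0 b0 : ℝ) (A : (p : ℕ) → ZMod p)
    (c : (p : ℕ) → ZMod p)
    (Z : (Fin K → ℕ) → (Fin K → ℕ) → ℤ → ℤ → ℂ) (SV : Finset (Fin K → ℕ))
    (κ : (Fin K → ℕ) → (Fin K → ℕ) → ℝ) (B : ℕ → ℝ)
    (hX : 1 ≤ X) (hN : 1 ≤ N) (hNX : (N : ℝ) ≤ X)
    (hSV : ∀ v ∈ SV, (Pr v : ℝ) ≤ V1)
    (hA : ∀ (p : ℕ), p.Prime → p ∣ Pi → A p ≠ 0)
    (hZ1 : ∀ v1 v2 k x, ‖Z v1 v2 k x‖ ≤ 1)
    (hZ2 : ∀ v1 v2 k x, Z v1 v2 k (x + ((T0 * (Pr v1 * Pr v2) : ℕ) : ℤ)) = Z v1 v2 k x)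
    (hW : (T0 : ℝ) * V1 ^ 4 ≤ N) (hq0 : 0 < q0)
    (hκ : ∀ v1 v2, |κ v1 v2| ≤ 1)
    (hκ2 : ∀ v1 ∈ SV, ∀ v2 ∈ SV, κ v1 v2 ≠ 0 →
      Squarefree (T0 * Pi * (Pr v1 * Pr v2)) ∧
      q0 ≤ ((T0 * Pi * (Pr v1 * Pr v2) : ℕ) : ℝ) ∧
      ((T0 * Pi * (Pr v1 * Pr v2) : ℕ) : ℝ) ≤ X)
    (hB : ∀ n ∈ Ioc N (2 * N), |B n| ≤ b0 ^ 2) :
    ‖∑ v1 ∈ SV, ∑ v2 ∈ SV, (κ v1 v2 : ℂ) *
      ∑ k ∈ freq (T0 * Pi * (Pr v1 * Pr v2)), Ih M (T0 * Pi * (Pr v1 * Pr v2)) k *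
        ∑ n ∈ Ioc N (2 * N), (B n : ℂ) * (Z v1 v2 k (n : ℤ) * PH Pi.primeFactors
          (fun p => (k : ZMod p) *
            ((T0 * Pi * (Pr v1 * Pr v2) / p : ℕ) : ZMod p)⁻¹ * A p) c (n : ℤ))‖ ≤
    (Real.sqrt C * X ^ ε) * b0 ^ 2 * ∑ i ∈ range (Nat.log 2 ⌊X⌋₊ + 2), min (M / q0) (1 / (2 : ℝ) ^ i) *
      Real.sqrt (N * (N * (((Ix i SV ×ˢ Ix i SV).filter (fun p => Dt p.1 p.2 = 0)).card : ℝ) +
        ∑ p ∈ (Ix i SV ×ˢ Ix i SV).filter (fun p => Dt p.1 p.2 ≠ 0),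
          Bd N ((T0 : ℝ) * V1 ^ 4) (Pi : ℝ) (Int.gcd (Dt p.1 p.2) (Pi : ℤ)))) := by
  classical
  have hX0 : 0 < X := by linarith
  have hXe1 : 1 ≤ X ^ ε := Real.one_le_rpow hX hε.le
  have hsC : 1 ≤ Real.sqrt C := by
    rw [show (1 : ℝ) = Real.sqrt 1 by simp]; exact Real.sqrt_le_sqrt hC
  have hS1 : 1 ≤ Real.sqrt C * X ^ ε := by nlinarith
  set S := Real.sqrt C * X ^ ε with hS
  set Q : (Fin K → ℕ) → (Fin K → ℕ) → ℕ :=
    fun v1 v2 => T0 * Pi * (Pr v1 * Pr v2) with hQ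
  set PX : ℤ × (Fin K → ℕ) × (Fin K → ℕ) → ℕ → ℂ := fun x n =>
    Z x.2.1 x.2.2 x.1 (n : ℤ) * PH Pi.primeFactors
        (fun p => (x.1 : ZMod p) * ((T0 * Pi * (Pr x.2.1 * Pr x.2.2) / p : ℕ) :
          ZMod p)⁻¹ * A p) c (n : ℤ) with hPX
  set γ : ℤ × (Fin K → ℕ) × (Fin K → ℕ) → ℂ := fun x =>
    (κ x.2.1 x.2.2 : ℂ) * (if x.1 ∈ freq (Q x.2.1 x.2.2) then Ih M (Q x.2.1 x.2.2) x.1 else 0) with hγ
  set F : ℤ × (Fin K → ℕ) × (Fin K → ℕ) → ℤ × (Fin K → ℕ) × (Fin K → ℕ) → ℝ := fun x y =>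
    if Dt x y = 0 then (N : ℝ) else S * Bd N ((T0 : ℝ) * V1 ^ 4)
      (Pi : ℝ) (Int.gcd (Dt x y) (Pi : ℤ)) with hF
  -- rewriting as a sum over dyadic ranges
  have hre : ∑ v1 ∈ SV, ∑ v2 ∈ SV, (κ v1 v2 : ℂ) *
      ∑ k ∈ freq (Q v1 v2), Ih M (Q v1 v2) k *
        ∑ n ∈ Ioc N (2 * N), (B n : ℂ) * PX (k, v1, v2) n =
      ∑ i ∈ range (Nat.log 2 ⌊X⌋₊ + 2), ∑ x ∈ Ix i SV, γ x * ∑ n ∈ Ioc N (2 * N), (B n : ℂ) * PX x n := by
    simp only [Ix_eq]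
    have e1 : ∀ i ∈ range (Nat.log 2 ⌊X⌋₊ + 2),
        ∑ x ∈ Kf i ×ˢ (SV ×ˢ SV), γ x * ∑ n ∈ Ioc N (2 * N), (B n : ℂ) * PX x n =
        ∑ v1 ∈ SV, ∑ v2 ∈ SV, ∑ k ∈ Kf i, γ (k, v1, v2) *
          ∑ n ∈ Ioc N (2 * N), (B n : ℂ) * PX (k, v1, v2) n := by
      intro i _
      rw [sum_product, sum_comm, sum_product]
    symm
    rw [sum_congr rfl e1, sum_comm]
    apply sum_congr rfl; intro v1 hv1
    rw [sum_comm]
    apply sum_congr rfl; intro v2 hv2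
    symm
    by_cases hk : κ v1 v2 = 0
    · simp [hγ, hk]
    · have hq := (hκ2 v1 hv1 v2 hv2 hk).2.2
      rw [dy (Q v1 v2) (Nat.log 2 ⌊X⌋₊ + 2) (fun k hk => logb X _ hq k hk), mul_sum]
      apply sum_congr rfl; intro i _
      rw [mul_sum]
      apply sum_congr rfl; intro k _
      simp only [hγ]
      split_ifs with h
      · ring
      · simp
  have hmain : ‖∑ i ∈ range (Nat.log 2 ⌊X⌋₊ + 2), ∑ x ∈ Ix i SV, γ x *
      ∑ n ∈ Ioc N (2 * N), (B n : ℂ) * PX x n‖ ≤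
      S * b0 ^ 2 * ∑ i ∈ range (Nat.log 2 ⌊X⌋₊ + 2), min (M / q0) (1 / (2 : ℝ) ^ i) *
      Real.sqrt (N * (N * (((Ix i SV ×ˢ Ix i SV).filter (fun p => Dt p.1 p.2 = 0)).card : ℝ) +
        ∑ p ∈ (Ix i SV ×ˢ Ix i SV).filter (fun p => Dt p.1 p.2 ≠ 0),
          Bd N ((T0 : ℝ) * V1 ^ 4) (Pi : ℝ)
            (Int.gcd (Dt p.1 p.2) (Pi : ℤ)))) := by
    refine (norm_sum_le _ _).trans ?_
    rw [mul_sum]
    apply sum_le_sum
    intro i _
    have hBdn : ∀ x y : ℤ × (Fin K → ℕ) × (Fin K → ℕ), 0 ≤ Bd N ((T0 : ℝ) * V1 ^ 4)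
      (Pi : ℝ) (Int.gcd (Dt x y) (Pi : ℤ)) := by
      intro x y
      exact Bd_nonneg _ _ _ _ (Nat.cast_nonneg _) (Nat.cast_nonneg _)
    have hmin0 : 0 ≤ min (M / q0) (1 / (2 : ℝ) ^ i) := by
      apply le_min <;> positivity
    have hcs := cs (Ix i SV) (Ioc N (2 * N)) γ B PX (min (M / q0) (1 / (2 : ℝ) ^ i)) (b0 ^ 2) F
      hmin0 (sq_nonneg _) ?_ hB ?_ ?_
    · refine hcs.trans ?_
      have hcard : ((Ioc N (2 * N)).card : ℝ) = N := by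
        rw [Nat.card_Ioc]; congr 1; omega
      rw [hcard]
      have hsumF : ∑ x ∈ Ix i SV, ∑ y ∈ Ix i SV, F x y ≤
          S * (N * (((Ix i SV ×ˢ Ix i SV).filter (fun p => Dt p.1 p.2 = 0)).card : ℝ) +
        ∑ p ∈ (Ix i SV ×ˢ Ix i SV).filter (fun p => Dt p.1 p.2 ≠ 0),
          Bd N ((T0 : ℝ) * V1 ^ 4) (Pi : ℝ)
            (Int.gcd (Dt p.1 p.2) (Pi : ℤ))) := by
        rw [← sum_product', mul_add]
        rw [← sum_filter_add_sum_filter_not (Ix i SV ×ˢ Ix i SV) (fun p => Dt p.1 p.2 = 0)]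
        apply add_le_add
        · have : ∀ p ∈ (Ix i SV ×ˢ Ix i SV).filter (fun p => Dt p.1 p.2 = 0), F p.1 p.2 = N := by
            intro p hp
            rw [mem_filter] at hp
            simp only [hF]
            rw [if_pos hp.2]
          rw [sum_congr rfl this, sum_const, nsmul_eq_mul]
          have hh : (0 : ℝ) ≤ N * (((Ix i SV ×ˢ Ix i SV).filter (fun p => Dt p.1 p.2 = 0)).card : ℝ) := by
            positivity
          rw [mul_comm (_ : ℝ) (N : ℝ)]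
          exact le_mul_of_one_le_left hh hS1
        · rw [mul_sum]
          apply sum_le_sum
          intro p hp
          rw [mem_filter] at hp
          simp only [hF]
          rw [if_neg hp.2]
      have hNn : (0 : ℝ) ≤ N := Nat.cast_nonneg _
      set TT := N * (((Ix i SV ×ˢ Ix i SV).filter (fun p => Dt p.1 p.2 = 0)).card : ℝ) +
        ∑ p ∈ (Ix i SV ×ˢ Ix i SV).filter (fun p => Dt p.1 p.2 ≠ 0),
          Bd N ((T0 : ℝ) * V1 ^ 4) (Pi : ℝ)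
            (Int.gcd (Dt p.1 p.2) (Pi : ℤ)) with hTT
      have hs : Real.sqrt (N * ∑ x ∈ Ix i SV, ∑ y ∈ Ix i SV, F x y) ≤ S * Real.sqrt (N * TT) := by
        have h1 : Real.sqrt (N * ∑ x ∈ Ix i SV, ∑ y ∈ Ix i SV, F x y) ≤
            Real.sqrt (S ^ 2 * (N * TT)) := by
          apply Real.sqrt_le_sqrt
          have hTT0 : 0 ≤ TT := by
            rw [hTT]
            apply add_nonneg
            · positivity
            · exact sum_nonneg (fun p _ => hBdn p.1 p.2)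
          calc (N : ℝ) * ∑ x ∈ Ix i SV, ∑ y ∈ Ix i SV, F x y ≤ N * (S * TT) :=
                mul_le_mul_of_nonneg_left hsumF hNn
            _ = S * (N * TT) := by ring
            _ ≤ S ^ 2 * (N * TT) := by
                apply mul_le_mul_of_nonneg_right _ (by positivity)
                nlinarith
        rw [Real.sqrt_mul (sq_nonneg _), Real.sqrt_sq (by linarith)] at h1
        exact h1
      calc b0 ^ 2 * min (M / q0) (1 / (2 : ℝ) ^ i) *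
            Real.sqrt (N * ∑ x ∈ Ix i SV, ∑ y ∈ Ix i SV, F x y) ≤
            b0 ^ 2 * min (M / q0) (1 / (2 : ℝ) ^ i) * (S * Real.sqrt (N * TT)) := by
            apply mul_le_mul_of_nonneg_left hs
            exact mul_nonneg (sq_nonneg _) hmin0
        _ = _ := by ring
    · -- bounds for the coefficients
      intro x hx
      rw [Ix_eq, mem_product, mem_product] at hx
      obtain ⟨hx1, hx2, hx3⟩ := hx
      simp only [hγ]
      rw [norm_mul, Complex.norm_real, Real.norm_eq_abs]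
      by_cases hk : κ x.2.1 x.2.2 = 0
      · rw [hk]; simp only [abs_zero, zero_mul]; exact hmin0
      have hq := (hκ2 _ hx2 _ hx3 hk).2.1
      split_ifs with hf
      · have h1 : |κ x.2.1 x.2.2| * ‖Ih M (Q x.2.1 x.2.2) x.1‖ ≤ 1 * ‖Ih M (Q x.2.1 x.2.2) x.1‖ :=
          mul_le_mul_of_nonneg_right (hκ _ _) (norm_nonneg _)
        refine h1.trans ?_
        rw [one_mul]
        apply le_min
        · refine (Ih_triv _ _ _).trans ?_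
          exact div_le_div_of_nonneg_left (Nat.cast_nonneg _) hq0 hq
        · refine (Ih_dec _ _ _ hf).trans ?_
          have := ((mem_Kf i x.1).mp hx1).1
          apply one_div_le_one_div_of_le (by positivity)
          have h2 : |(x.1 : ℝ)| = (x.1.natAbs : ℝ) := by
            rw [← Int.cast_abs, Int.abs_eq_natAbs]; simp
          rw [h2]
          exact_mod_cast this
      · simp only [norm_zero, mul_zero]; exact hmin0
    · intro x _ y _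
      simp only [hF]
      split_ifs
      · positivity
      · exact mul_nonneg (by linarith) (hBdn x y)
    · intro x hx y hy gx gy
      rw [Ix_eq, mem_product, mem_product] at hx hy
      obtain ⟨hx1, hx2, hx3⟩ := hx
      obtain ⟨hy1, hy2, hy3⟩ := hy
      have kx : κ x.2.1 x.2.2 ≠ 0 := by
        intro h0; apply gx; simp [hγ, h0]
      have ky : κ y.2.1 y.2.2 ≠ 0 := by
        intro h0; apply gy; simp [hγ, h0]
      simp only [hF]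
      split_ifs with hD
      · refine (norm_sum_le _ _).trans ?_
        have h1 : ∀ n ∈ Ioc N (2 * N), ‖PX x n * (starRingEnd ℂ) (PX y n)‖ ≤ 1 := by
          intro n _
          rw [norm_mul, RCLike.norm_conj]
          have h2 : ∀ z, ‖PX z n‖ ≤ 1 := by
            intro z
            simp only [hPX]
            rw [norm_mul]
            exact mul_le_one₀ (hZ1 _ _ _ _) (norm_nonneg _) (PH_norm _ _ _ _)
          exact mul_le_one₀ (h2 x) (norm_nonneg _) (h2 y)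
        refine (sum_le_sum h1).trans ?_
        rw [sum_const, Nat.card_Ioc, nsmul_eq_mul, mul_one]
        apply le_of_eq
        congr 1; omega
      · exact pair hε hC hV T0 Pi N X V1 A c Z hX hN hNX hA hZ1 hZ2 hW x y
          (hSV _ hx2) (hSV _ hx3) (hSV _ hy2) (hSV _ hy3) (hκ2 _ hx2 _ hx3 kx).1
          (hκ2 _ hy2 _ hy3 ky).1 (hκ2 _ hx2 _ hx3 kx).2.2 hD
  exact (le_of_eq (congrArg norm hre)).trans hmain

/-- **job Y826-OA** -/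
theorem oa (hP : S_PH) (hV : S_VDC) : S_OA := by
  classical
  intro K h W b hyp ε hε
  obtain ⟨C, hC, hV⟩ := hV ε hε
  refine ⟨4 * Real.sqrt C, ?_, ?_⟩
  · have : 1 ≤ Real.sqrt C := by
      rw [show (1 : ℝ) = Real.sqrt 1 by simp]; exact Real.sqrt_le_sqrt hC
    linarith
  intro X M N a r u1 u2 e1 e2 l SV κ V1 q0 b0 β hX hN hNX hMX hsf hSV hW hq0 hκ hκ2 hβ
  obtain ⟨nn, ω, A, Z, hω, hA, hZ1, hZ2, hR⟩ := hP K h W b hyp a r u1 u2 l M hsf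
  have hb0 : 0 ≤ b0 := (abs_nonneg _).trans (hβ (N + 1) (by rw [mem_Ioc]; omega))
  set t : ℤ := l * ((W * Pr a * Pr r : ℕ) : ℤ) with ht
  set c : (p : ℕ) → ZMod p := fun p => if p ∣ Pr u2 then ((t : ℤ) : ZMod p) else 0 with hc
  set BB : ℕ → ℝ := Bf N β t with hBB
  have hBBle : ∀ n ∈ Ioc N (2 * N), |BB n| ≤ b0 ^ 2 := fun n hn => Bf_le N β t b0 hb0 hβ n hn
  set T0 : ℕ := W * Pr a * Pr e1 * Pr e2 with hT0
  set Pi : ℕ := Pr r * Pr u1 * Pr u2 with hPi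
  have hPm : ∀ e v : Fin K → ℕ, Pr (e * v) = Pr e * Pr v := by
    intro e v
    unfold Pr
    rw [← prod_mul_distrib]
    rfl
  have hq : ∀ v1 v2 : Fin K → ℕ, W * Pr a * Pr r * Pr u1 * Pr u2 * Pr (e1 * v1) * Pr (e2 * v2) =
      T0 * Pi * (Pr v1 * Pr v2) := by
    intro v1 v2
    rw [hPm, hPm, hT0, hPi]; ring
  have hT0c : (W * Pr a * Pr e1 * Pr e2 : ℝ) = (T0 : ℝ) := by rw [hT0]; push_cast; ring
  rw [hT0c] at hW
  simp only [hq] at hκ2 hR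
  rw [hT0c]
  set RHS := ∑ i ∈ range (Nat.log 2 ⌊X⌋₊ + 2), min (M / q0) (1 / (2 : ℝ) ^ i) *
      Real.sqrt (N * (N * (((Ix i SV ×ˢ Ix i SV).filter (fun p => Dt p.1 p.2 = 0)).card : ℝ) +
        ∑ p ∈ (Ix i SV ×ˢ Ix i SV).filter (fun p => Dt p.1 p.2 ≠ 0),
          Bd N ((T0 : ℝ) * V1 ^ 4) (Pi : ℝ) (Int.gcd (Dt p.1 p.2) (Pi : ℤ)))) with hRHS
  have hZp : ∀ ξ v1 v2 k x, Z ξ (e1 * v1) (e2 * v2) k (x + ((T0 * (Pr v1 * Pr v2) : ℕ) : ℤ)) =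
      Z ξ (e1 * v1) (e2 * v2) k x := by
    intro ξ v1 v2 k x
    rw [← hZ2 ξ (e1 * v1) (e2 * v2) k x]
    congr 3
    rw [hPm, hPm, hT0]; ring
  set E : Fin nn → ℂ := fun ξ => ∑ v1 ∈ SV, ∑ v2 ∈ SV, (κ v1 v2 : ℂ) *
      ∑ k ∈ freq (T0 * Pi * (Pr v1 * Pr v2)), Ih M (T0 * Pi * (Pr v1 * Pr v2)) k *
        ∑ n ∈ Ioc N (2 * N), (BB n : ℂ) * (Z ξ (e1 * v1) (e2 * v2) k (n : ℤ) *
          PH Pi.primeFactors
          (fun p => (k : ZMod p) *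
            ((T0 * Pi * (Pr v1 * Pr v2) / p : ℕ) : ZMod p)⁻¹ * A ξ p)
          c (n : ℤ)) with hE
  have hEle : ∀ ξ, ‖E ξ‖ ≤ (Real.sqrt C * X ^ ε) * b0 ^ 2 * RHS := by
    intro ξ
    exact one hε hC hV T0 Pi M N X V1 q0 b0 (A ξ) c (fun v1 v2 => Z ξ (e1 * v1) (e2 * v2)) SV κ BB
      hX hN hNX hSV (hA ξ) (fun v1 v2 => hZ1 ξ (e1 * v1) (e2 * v2)) (hZp ξ) hW hq0 hκ hκ2 hBBle
  set T := ∑ v1 ∈ SV, ∑ v2 ∈ SV, κ v1 v2 * ∑ n1 ∈ Ioc N (2 * N), ∑ n2 ∈ Ioc N (2 * N),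
      ind ((n2 : ℤ) = n1 + t) * (β n1 * β n2 *
        ∑ m ∈ Ioc M (2 * M), ind (Lc h W b a r (m * n1)) * Du h u1 (e1 * v1) (m * n1) *
          Du h u2 (e2 * v2) (m * n2)) with hT
  have hTE : (T : ℂ) = ∑ ξ, (ω ξ : ℂ) * E ξ := by
    have e0 : ∑ ξ, (ω ξ : ℂ) * E ξ = ∑ v1 ∈ SV, ∑ v2 ∈ SV, (κ v1 v2 : ℂ) *
        ∑ n ∈ Ioc N (2 * N), (BB n : ℂ) * ∑ ξ, (ω ξ : ℂ) *
          ∑ k ∈ freq (T0 * Pi * (Pr v1 * Pr v2)),
            Ih M (T0 * Pi * (Pr v1 * Pr v2)) k * Z ξ (e1 * v1) (e2 * v2) k (n : ℤ) *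
            PH Pi.primeFactors
            (fun p => (k : ZMod p) *
              ((T0 * Pi * (Pr v1 * Pr v2) / p : ℕ) : ZMod p)⁻¹ * A ξ p)
            c (n : ℤ) := by
      simp only [hE]
      simp only [mul_sum]
      rw [sum_comm]
      apply sum_congr rfl; intro v1 _
      rw [sum_comm]
      apply sum_congr rfl; intro v2 _
      rw [sum_comm' (s := univ) (t := fun _ => freq (T0 * Pi * (Pr v1 * Pr v2)))
        (t' := freq (T0 * Pi * (Pr v1 * Pr v2))) (s' := fun _ => univ)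
        (by simp)]
      rw [sum_comm' (s := Ioc N (2 * N)) (t := fun _ => univ) (t' := univ)
        (s' := fun _ => Ioc N (2 * N)) (by simp)]
      rw [sum_comm]
      apply sum_congr rfl; intro ξ _
      rw [sum_comm]
      apply sum_congr rfl; intro n _
      apply sum_congr rfl; intro k _
      ring
    rw [e0, hT]
    push_cast
    apply sum_congr rfl; intro v1 hv1
    apply sum_congr rfl; intro v2 hv2
    by_cases hk : κ v1 v2 = 0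
    · rw [hk]; simp
    congr 1
    apply sum_congr rfl; intro n1 hn1
    have hsq := (hκ2 v1 hv1 v2 hv2 hk).1
    simp only [hBB, Bf]
    push_cast
    rw [sum_mul]
    apply sum_congr rfl; intro n2 hn2
    by_cases hn : (n2 : ℤ) = n1 + t
    · have hr := hR (e1 * v1) (e2 * v2) (by rw [hq]; exact hsq) n1 n2 hn
      simp only [hq] at hr
      push_cast at hr
      rw [hr]
      ring
    · have : ind ((n2 : ℤ) = n1 + t) = 0 := by unfold ind; rw [if_neg hn]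
      rw [this]; simp
  have hfin : |T| ≤ 4 * ((Real.sqrt C * X ^ ε) * b0 ^ 2 * RHS) := by
    have h1 : |T| = ‖(T : ℂ)‖ := by rw [Complex.norm_real, Real.norm_eq_abs]
    rw [h1, hTE]
    refine (norm_sum_le _ _).trans ?_
    have h0 : 0 ≤ (Real.sqrt C * X ^ ε) * b0 ^ 2 * RHS := by
      rw [hRHS]
      apply mul_nonneg
      · have := Real.rpow_nonneg (by linarith : (0 : ℝ) ≤ X) ε
        positivity
      · apply sum_nonneg
        intro i _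
        apply mul_nonneg _ (Real.sqrt_nonneg _)
        apply le_min <;> positivity
    calc ∑ ξ, ‖(ω ξ : ℂ) * E ξ‖ ≤ ∑ ξ, |ω ξ| * ((Real.sqrt C * X ^ ε) * b0 ^ 2 * RHS) := by
          apply sum_le_sum
          intro ξ _
          rw [norm_mul, Complex.norm_real, Real.norm_eq_abs]
          exact mul_le_mul_of_nonneg_left (hEle ξ) (abs_nonneg _)
      _ = (∑ ξ, |ω ξ|) * ((Real.sqrt C * X ^ ε) * b0 ^ 2 * RHS) := by rw [sum_mul]
      _ ≤ 4 * ((Real.sqrt C * X ^ ε) * b0 ^ 2 * RHS) := mul_le_mul_of_nonneg_right hω h0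
  refine hfin.trans (le_of_eq ?_)
  ring

end Pool.Agent.Y826.ZL.Y535
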